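import Pool.Agent.H31.Semi

open Pool.Agent.H31.Semi

theorem Pool.Agent.Results.MP_7a28e0_gt.Neg.result :
    ∃ S : Set C, Semifilter S ∧
      ∃ U : Set S, IsClopen U ∧ U.Nonempty ∧ IsEmpty (U ≃ₜ S) :=
  main
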